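import Mathlib
import Pool.Agent.TH278.FN.ParE
set_option autoImplicit false

/-!
# The extension conjecture for the paraboloid in `ℝ³`, all functions, tested on products of
functions of at most two coordinates

Let `q > 3`, `1/q' = 1 - 1/q`. There is a constant `C` such that for every `U` in the disc
`B(0, 1/2)`, in the coordinates `c_0, c_1, c_2` of every frame that moves with a velocity `-2u`,
`|u| < 1/2` (`c_0, c_1` are the coordinates of `ξ' + 2tu` in an orthonormal basis of the plane,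
`c_2 = t`, where `ξ = (ξ', t)`), for all functions `φ_i ≥ 0` of the coordinate `c_i`, `g_ij ≥ 0`
of the coordinates `(c_i, c_j)`, `i < j`, and all weights `v_i, w_ij ≥ 0` of total weight one at
each coordinate,

`∫ |E f| ∏_i φ_i(c_i)^{v_i/q'} ∏_{i<j} g_ij(c_i, c_j)^{w_ij/q'} dξ`
  `≤ C ‖f‖_∞ ∏_i (∫ φ_i)^{v_i/q'} ∏_{i<j} (∫ g_ij)^{w_ij/q'}`  for all `f ∈ L^∞(U)`.

If `v_0 = v_1 = 0`, then the bound holds for all `f ∈ L⁴(U)` with `‖f‖_4`.
-/

namespace Pool.Agent.Results.MP_5ab805_an.AllDensitiesProducts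

open MeasureTheory Set Metric Complex Filter
open Pool.Agent.TH278.FN
open scoped ENNReal NNReal RealInnerProductSpace

/-- The Fourier extension operator of the paraboloid over `U`. -/
noncomputable def ext (U : Set E2) (f : E2 → ℂ) (ξ : E2 × ℝ) : ℂ :=
  ∫ x in U, cexp (-(I * ((⟪x, ξ.1⟫ + ‖x‖ ^ 2 * ξ.2 : ℝ) : ℂ))) * f x

/-- extension by zero to the plane -/
theorem exists_h (U : Set E2) (hU : U ⊆ closedBall 0 (1 / 2)) (p : ℝ≥0∞) (f : E2 → ℂ)
    (hf : MemLp f p (volume.restrict U)) :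
    ∃ h : E2 → ℂ, Measurable h ∧ (∀ x, x ∉ closedBall (0 : E2) (1 / 2) → h x = 0) ∧
      (∀ ξ, ext U f ξ = ∫ x : E2, cexp (-(I * ((⟪x, ξ.1⟫ + ‖x‖ ^ 2 * ξ.2 : ℝ) : ℂ))) * h x) ∧
      eLpNorm h p volume = eLpNorm f p (volume.restrict U) := by
  obtain ⟨f0, hf0, hff⟩ := hf.1
  set V : Set E2 := toMeasurable volume U ∩ closedBall 0 (1 / 2) with hV
  have hVm : MeasurableSet V := (measurableSet_toMeasurable _ _).inter measurableSet_closedBall
  have hUfin : volume U ≠ ⊤ := ne_top_of_le_ne_top measure_closedBall_lt_top.ne (measure_mono hU)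
  have hres : (volume : Measure E2).restrict V = volume.restrict U := by
    rw [hV, inter_comm, ← Measure.restrict_restrict measurableSet_closedBall,
      Measure.restrict_toMeasurable hUfin, Measure.restrict_restrict measurableSet_closedBall,
      inter_eq_self_of_subset_right hU]
  refine ⟨V.indicator f0, hf0.measurable.indicator hVm, ?_, ?_, ?_⟩
  · intro x hx
    exact indicator_of_notMem (fun h => hx h.2) _
  · intro ξ
    unfold ext
    have h1 : ∀ x : E2, cexp (-(I * ((⟪x, ξ.1⟫ + ‖x‖ ^ 2 * ξ.2 : ℝ) : ℂ))) * V.indicator f0 x =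
        V.indicator (fun x => cexp (-(I * ((⟪x, ξ.1⟫ + ‖x‖ ^ 2 * ξ.2 : ℝ) : ℂ))) * f0 x) x := by
      intro x
      by_cases hx : x ∈ V
      · rw [indicator_of_mem hx, indicator_of_mem hx]
      · rw [indicator_of_notMem hx, indicator_of_notMem hx, mul_zero]
    simp_rw [h1]
    rw [integral_indicator hVm, hres]
    refine integral_congr_ae ?_
    filter_upwards [hff] with x hx
    rw [hx]
  · rw [eLpNorm_indicator_eq_eLpNorm_restrict hVm, hres]
    exact (eLpNorm_congr_ae hff).symm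

/-- **Theorem.** -/
theorem result (q : ℝ) (hq : 3 < q) :
    ∃ C : ℝ≥0, ∀ (U : Set E2), U ⊆ closedBall 0 (1 / 2) →
      ∀ (e : OrthonormalBasis (Fin 2) ℝ E2) (u : E2), ‖u‖ < 1 / 2 →
      ∀ (v : Fin 3 → ℝ) (w : Fin 3 → Fin 3 → ℝ), Weights v w →
      ∀ p : ℝ≥0∞, (p = ∞ ∨ p = 4 ∧ v 0 = 0 ∧ v 1 = 0) →
      ∀ (f : E2 → ℂ), MemLp f p (volume.restrict U) →
      ∀ (φ : Fin 3 → ℝ → ℝ≥0∞) (g : Fin 3 → Fin 3 → ℝ × ℝ → ℝ≥0∞), (∀ i, Measurable (φ i)) →
        (∀ i j, Measurable (g i j)) →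
        ∫⁻ ξ : E2 × ℝ, ‖ext U f ξ‖ₑ * ((∏ i, φ i (co e u ξ i) ^ (v i * (1 - 1 / q))) *
            ∏ i, ∏ j ∈ Finset.Ioi i, g i j (co e u ξ i, co e u ξ j) ^ (w i j * (1 - 1 / q))) ≤
          C * eLpNorm f p (volume.restrict U) * ((∏ i, (∫⁻ t, φ i t) ^ (v i * (1 - 1 / q))) *
            ∏ i, ∏ j ∈ Finset.Ioi i, (∫⁻ z, g i j z) ^ (w i j * (1 - 1 / q))) := by
  obtain ⟨C, hC⟩ := par_gen q hq
  refine ⟨C, ?_⟩
  intro U hU e u hu v w hw p hp f hf φ g hφ hg
  obtain ⟨h, hhm, hhs, hhe, hhn⟩ := exists_h U hU p f hf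
  -- the function in the frame
  have key : ∀ h : E2 → ℂ, Measurable h → ∫⁻ ξ : E2 × ℝ,
      ‖∫ x : E2, cexp (-(I * ((⟪x, ξ.1⟫ + ‖x‖ ^ 2 * ξ.2 : ℝ) : ℂ))) * h x‖ₑ *
        tst (1 - 1 / q) v w φ g (co e u ξ) =
      ∫⁻ x, FE (fr e u h) x * tst (1 - 1 / q) v w φ g x := by
    intro h hh
    simp_rw [ex_fr e u h]
    have hfrm : Measurable (fr e u h) := hh.comp (fr_mp e u).measurable
    exact co_int e u (fun x => FE (fr e u h) x * tst (1 - 1 / q) v w φ g x)
      ((FE_meas _ hfrm).mul (tst_meas _ v w φ g hφ hg))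
  have hsupp : ∀ k : E2 → ℂ, (∀ x, x ∉ closedBall (0 : E2) (1 / 2) → k x = 0) →
      ∀ y : ℝ × ℝ, 1 ≤ y.1 ^ 2 + y.2 ^ 2 → fr e u k y = 0 := by
    intro k hk y hy
    apply hk
    intro hcon
    rw [mem_closedBall_zero_iff] at hcon
    have h1 : ‖P2 y‖ < 1 := by
      have h2 : e.repr.symm (P2 y) = (u + e.repr.symm (P2 y)) - u := by abel
      rw [← e.repr.symm.norm_map (P2 y), h2]
      calc _ ≤ ‖u + e.repr.symm (P2 y)‖ + ‖u‖ := norm_sub_le _ _
        _ < 1 := by linarith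
    have h3 := P2_norm y
    nlinarith [norm_nonneg (P2 y)]
  have hLHS : ∫⁻ ξ : E2 × ℝ, ‖ext U f ξ‖ₑ * ((∏ i, φ i (co e u ξ i) ^ (v i * (1 - 1 / q))) *
            ∏ i, ∏ j ∈ Finset.Ioi i, g i j (co e u ξ i, co e u ξ j) ^ (w i j * (1 - 1 / q))) =
      ∫⁻ ξ : E2 × ℝ,
        ‖∫ x : E2, cexp (-(I * ((⟪x, ξ.1⟫ + ‖x‖ ^ 2 * ξ.2 : ℝ) : ℂ))) * h x‖ₑ *
        tst (1 - 1 / q) v w φ g (co e u ξ) := by
    refine lintegral_congr fun ξ => ?_
    rw [hhe]
    rfl
  rw [hLHS, ← hhn]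
  have hbox : ∀ k : E2 → ℂ, Measurable k → ∀ s : ℝ≥0∞, 1 ≤ s →
      (∀ x, x ∉ closedBall (0 : E2) (1 / 2) → k x = 0) → MemLp k s volume → Integrable k := by
    intro k hk s hs1 hks hmem
    have h1 : MemLp k s (volume.restrict (closedBall (0 : E2) (1 / 2))) := hmem.restrict _
    have : IsFiniteMeasure ((volume : Measure E2).restrict (closedBall (0 : E2) (1 / 2))) :=
      ⟨by rw [Measure.restrict_apply_univ]; exact measure_closedBall_lt_top⟩
    have h2 : IntegrableOn k (closedBall (0 : E2) (1 / 2)) := h1.integrable hs1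
    exact h2.integrable_of_forall_notMem_eq_zero hks
  rcases hp with rfl | ⟨rfl, hv0, hv1⟩
  · have h1 : eLpNorm h ∞ volume ≠ ⊤ := by rw [hhn]; exact hf.2.ne
    set M : ℝ := (eLpNorm h ∞ volume).toReal with hMdef
    have hM0 : 0 ≤ M := ENNReal.toReal_nonneg
    have hM : ∀ᵐ x : E2, ‖h x‖ ≤ M := by
      have h2 := h1
      rw [eLpNorm_exponent_top] at h2
      filter_upwards [enorm_ae_le_eLpNormEssSup h volume] with x hx
      rw [hMdef, ← toReal_enorm, eLpNorm_exponent_top]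
      exact ENNReal.toReal_mono h2 hx
    set k : E2 → ℂ := {z | ‖h z‖ ≤ M}.indicator h with hkdef
    have hk : Measurable k := hhm.indicator (measurableSet_le hhm.norm measurable_const)
    have hkM : ∀ z, ‖k z‖ ≤ M := by
      intro z
      by_cases hz : z ∈ {z | ‖h z‖ ≤ M}
      · rw [hkdef, indicator_of_mem hz]; exact hz
      · rw [hkdef, indicator_of_notMem hz, norm_zero]; exact hM0
    have hks : ∀ x, x ∉ closedBall (0 : E2) (1 / 2) → k x = 0 := by
      intro x hx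
      by_cases hz : x ∈ {z | ‖h z‖ ≤ M}
      · rw [hkdef, indicator_of_mem hz]; exact hhs x hx
      · rw [hkdef, indicator_of_notMem hz]
    have hkh : ∀ᵐ x : E2, h x = k x := by
      filter_upwards [hM] with x hx
      rw [hkdef, indicator_of_mem (show x ∈ {z | ‖h z‖ ≤ M} from hx)]
    have hrepl : ∀ ξ : E2 × ℝ,
        ∫ x : E2, cexp (-(I * ((⟪x, ξ.1⟫ + ‖x‖ ^ 2 * ξ.2 : ℝ) : ℂ))) * h x =
        ∫ x : E2, cexp (-(I * ((⟪x, ξ.1⟫ + ‖x‖ ^ 2 * ξ.2 : ℝ) : ℂ))) * k x := by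
      intro ξ
      refine integral_congr_ae ?_
      filter_upwards [hkh] with x hx
      rw [hx]
    simp_rw [hrepl]
    rw [key k hk]
    have hki : Integrable k := by
      refine hbox k hk ∞ le_top hks ?_
      exact memLp_top_of_bound hk.aestronglyMeasurable M (Eventually.of_forall hkM)
    have hfri : Integrable (fr e u k) := (fr_mp e u).integrable_comp_of_integrable hki
    have h7 := (hC (fr e u k) (hk.comp (fr_mp e u).measurable) (hsupp k hks) hfri v w hw φ g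
      hφ hg).1 M (fun z => hkM _)
    have h8 : ENNReal.ofReal M = eLpNorm h ∞ volume := ENNReal.ofReal_toReal h1
    rw [h8] at h7
    exact h7
  · rw [key h hhm]
    have hmem : MemLp h 4 volume := ⟨hhm.aestronglyMeasurable, by rw [hhn]; exact hf.2⟩
    have hhi : Integrable h := hbox h hhm 4 (by norm_num) hhs hmem
    have hfri : Integrable (fr e u h) := (fr_mp e u).integrable_comp_of_integrable hhi
    have h7 := (hC (fr e u h) (hhm.comp (fr_mp e u).measurable) (hsupp h hhs) hfri v w hw φ g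
      hφ hg).2 hv0 hv1
    have h8 : N4 (fr e u h) = eLpNorm h 4 volume := by
      rw [eLpNorm_eq_lintegral_rpow_enorm_toReal (by norm_num) (by norm_num)]
      unfold N4
      have h9 : ∫⁻ y : ℝ × ℝ, ‖fr e u h y‖ₑ ^ (4 : ℝ) = ∫⁻ x : E2, ‖h x‖ₑ ^ (4 : ℝ) :=
        (fr_mp e u).lintegral_comp (hhm.enorm.pow_const (4 : ℝ))
      rw [h9]
      norm_num
    rw [h8] at h7
    exact h7

end Pool.Agent.Results.MP_5ab805_an.AllDensitiesProducts
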