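import Mathlib
import Pool.Agent.TH277.CP.E
set_option autoImplicit false

/-! The Fourier extension operator of the paraboloid in `ℝ³` on superpositions of functions
`c e^{iφ} 1_K`, with `K` convex and `σ φ + T |x|²` convex on `K` (no smoothness, no bound on `φ`):
the conjectured estimate, for every `q > 3`, on the half space `σ t < -T`, with a constant that
depends on `q` only. -/

namespace Pool.Agent.Results.MP_5ab805_an.ConvexPhases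

open MeasureTheory Set Complex
open scoped ENNReal NNReal
open Pool.Agent.TH277

/-- The Fourier extension operator of the paraboloid `(x₁, x₂, x₁² + x₂²)` over `U`. -/
noncomputable def ext (U : Set (ℝ × ℝ)) (f : ℝ × ℝ → ℂ) (ξ : (ℝ × ℝ) × ℝ) : ℂ :=
  ∫ x in U, cexp (-(I * ((x.1 * ξ.1.1 + x.2 * ξ.1.2 + (x.1 ^ 2 + x.2 ^ 2) * ξ.2 : ℝ) : ℂ))) * f x

/-- `f = c e^{iφ} 1_K` with `K ⊆ U` convex, `|c| ≤ 1` and `σ φ + T |x|²` convex on `K`. -/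
def IsAtom (U : Set (ℝ × ℝ)) (σ T : ℝ) (f : ℝ × ℝ → ℂ) : Prop :=
  ∃ (K : Set (ℝ × ℝ)) (φ : ℝ × ℝ → ℝ) (c : ℂ), K ⊆ U ∧ ‖c‖ ≤ 1 ∧
    ConvexOn ℝ K (fun x => σ * φ x + T * (x.1 ^ 2 + x.2 ^ 2)) ∧
    f = K.indicator fun x => c * cexp (I * φ x)

theorem result (q : ℝ) (hq : 3 < q) :
    ∃ C : ℝ≥0, ∀ (U : Set (ℝ × ℝ)), (∀ x ∈ U, x.1 ^ 2 + x.2 ^ 2 ≤ (1 / 2) ^ 2) →
      ∀ (σ T : ℝ), (σ = 1 ∨ σ = -1) →
      ∀ (S : Type) [MeasurableSpace S] (ν : Measure S) [IsFiniteMeasure ν] (g : S → ℝ × ℝ → ℂ),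
        Measurable (Function.uncurry g) → (∀ s, IsAtom U σ T (g s)) →
        ∫⁻ ξ in {ξ : (ℝ × ℝ) × ℝ | σ * ξ.2 < -T}, ‖ext U (fun x => ∫ s, g s x ∂ν) ξ‖ₑ ^ q ≤
          C * ν univ ^ (q - 2) * ∫⁻ x in U, ‖∫ s, g s x ∂ν‖ₑ ^ (2 : ℝ) := by
  refine ⟨(CP.cst q).toNNReal, ?_⟩
  intro U hU σ T hσ S _ ν _ g hm ha
  rw [ENNReal.coe_toNNReal (CP.cst_lt q hq).ne]
  have hU' : U ⊆ CP.disc := by
    intro x hx
    have h := hU x hx
    show x.1 ^ 2 + x.2 ^ 2 ≤ 1 / 4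
    linarith
  have h0 : ∀ x, x ∉ U → (∫ s, g s x ∂ν) = 0 := by
    intro x hx
    have h1 : ∀ s, g s x = 0 := fun s => CP.atom_supp (ha s) hx
    simp only [h1, integral_zero]
  have h1 : ∀ ξ : (ℝ × ℝ) × ℝ, ext U (fun x => ∫ s, g s x ∂ν) ξ =
      ∫ x, CP.ph ξ x * CP.sup ν g x := by
    intro ξ
    unfold ext
    apply setIntegral_eq_integral_of_forall_compl_eq_zero
    intro x hx
    show _ * (∫ s, g s x ∂ν) = 0
    rw [h0 x hx, mul_zero]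
  have h2 : ∫⁻ x, ‖CP.sup ν g x‖ₑ ^ (2 : ℝ) ≤ ∫⁻ x in U, ‖∫ s, g s x ∂ν‖ₑ ^ (2 : ℝ) := by
    have h3 : (fun x => ‖CP.sup ν g x‖ₑ ^ (2 : ℝ)) =
        U.indicator fun x => ‖∫ s, g s x ∂ν‖ₑ ^ (2 : ℝ) := by
      ext x
      by_cases hx : x ∈ U
      · rw [indicator_of_mem hx]
        rfl
      · rw [indicator_of_notMem hx]
        show ‖∫ s, g s x ∂ν‖ₑ ^ (2 : ℝ) = 0
        rw [h0 x hx, enorm_zero, ENNReal.zero_rpow_of_pos two_pos]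
    rw [h3]
    exact lintegral_indicator_le _ _
  simp only [h1]
  refine (CP.main q hq hU' hσ ν hm ha).trans ?_
  gcongr

end Pool.Agent.Results.MP_5ab805_an.ConvexPhases
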