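import Mathlib
import Pool.Agent.TH218.DR.A24
set_option autoImplicit false

/-!
# The Fourier extension conjecture for the paraboloid in `ℝ³`: densities regular in one direction

Nothing is assumed about how the density varies with `x₁`; all hypotheses concern its restrictions to
the vertical lines `{x₁} × ℝ`, and say nothing about how two different lines are related.
-/

namespace Pool.Agent.Results.MP_5ab805_an.DirectionalRegularity

open MeasureTheory Set Complex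
open scoped ENNReal NNReal Real
open Pool.Agent.TH218

/-- the Fourier extension operator of the problem, with `ξ = ((ξ₁, ξ₂), ξ₃)` -/
noncomputable def ext (U : Set (ℝ × ℝ)) (f : ℝ × ℝ → ℂ) (ξ : (ℝ × ℝ) × ℝ) : ℂ :=
  ∫ x in U, cexp (-(I * ((x.1 * ξ.1.1 + x.2 * ξ.1.2 + (x.1 ^ 2 + x.2 ^ 2) * ξ.2 : ℝ) : ℂ))) * f x

/-- the set where `M` is between `2^(j-1)` (excluded) and `2^j` -/
def level (M : ℝ × ℝ → ℝ) (j : ℤ) : Set (ℝ × ℝ) := {x | (2 : ℝ) ^ (j - 1) < M x ∧ M x ≤ 2 ^ j}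

/-- the part of `f` where `M` is between `2^(j-1)` (excluded) and `2^j` -/
noncomputable def part (f : ℝ × ℝ → ℂ) (M : ℝ × ℝ → ℝ) (j : ℤ) : ℝ × ℝ → ℂ :=
  (level M j).indicator f

/-- the length of the section of the set `A` by the vertical line over `x` -/
noncomputable def length (A : Set (ℝ × ℝ)) (x : ℝ) : ℝ≥0∞ := volume {y : ℝ | (x, y) ∈ A}

theorem ext_eq {U : Set (ℝ × ℝ)} {f : ℝ × ℝ → ℂ} (h : ∀ x ∉ U, f x = 0) (ξ : (ℝ × ℝ) × ℝ) :
    ext U f ξ = DR.EQ f (ξ.2, ξ.1.1, ξ.1.2) := by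
  unfold ext DR.EQ DR.EX DR.ee
  apply setIntegral_eq_integral_of_forall_compl_eq_zero
  intro x hx
  rw [h x hx, mul_zero]

theorem box {U : Set (ℝ × ℝ)} (hU : ∀ x ∈ U, x.1 ^ 2 + x.2 ^ 2 ≤ (1 / 2) ^ 2) (x : ℝ × ℝ)
    (hx : x ∈ U) : |x.1| ≤ 1 ∧ |x.2| ≤ 1 := by
  have h1 := hU x hx
  constructor <;> apply abs_le_of_sq_le_sq _ zero_le_one <;> nlinarith [sq_nonneg x.1, sq_nonneg x.2]

theorem norm_eq {U : Set (ℝ × ℝ)} {f : ℝ × ℝ → ℂ} (hf : Measurable f) (h : ∀ x ∉ U, f x = 0)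
    (q : ℝ) : ∫⁻ ξ : (ℝ × ℝ) × ℝ, ‖ext U f ξ‖ₑ ^ q = ∫⁻ z : ℝ × ℝ × ℝ, ‖DR.EQ f z‖ₑ ^ q := by
  simp only [ext_eq h]
  have hm : Measurable fun z : ℝ × ℝ × ℝ => ‖DR.EQ f z‖ₑ ^ q := (DR.EQ_meas hf).enorm.pow_const q
  have h1 := Measure.measurePreserving_swap (μ := (volume : Measure (ℝ × ℝ)))
    (ν := (volume : Measure ℝ))
  have h2 := h1.lintegral_comp hm
  exact h2

theorem level_eq (M : ℝ × ℝ → ℝ) (j : ℤ) : level M j = DR.Lv M (2 ^ j) := by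
  ext x
  have e : (2 : ℝ) ^ j = 2 * 2 ^ (j - 1) := by
    rw [zpow_sub_one₀ (by norm_num)]
    ring
  show ((2 : ℝ) ^ (j - 1) < M x ∧ M x ≤ 2 ^ j) ↔ ((2 : ℝ) ^ j < 2 * M x ∧ M x ≤ 2 ^ j)
  constructor
  · rintro ⟨h1, h2⟩
    exact ⟨by rw [e]; linarith, h2⟩
  · rintro ⟨h1, h2⟩
    exact ⟨by rw [e] at h1; linarith, h2⟩

/-- **Densities regular in one direction.** Let `q > 3` and `0 < s ≤ 1/2` with `q (1 + 2 s) > 4`
(no condition when `s ≥ 1/6`). Let `f` and `M ≥ |f|` be measurable, `M = 0` off `U`. For `j ∈ ℤ` let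
`f_j` be the part of `f` where `2^(j-1) < M ≤ 2^j`, and `ℓ_j(x₁)` the length of the section of this
set by the vertical line over `x₁`. If for almost every `x₁`, for all `j` and `0 < h ≤ 1`,
`∫ |f_j(x₁, y+h) - f_j(x₁, y)|² dy ≤ K 4^j h^{2s} ℓ_j(x₁)^{1-2s}`, then
`∫ |E f|^q ≤ C ∫ M^q` with `C = C(q, s, K)`. -/
theorem result (q s : ℝ) (hq : 3 < q) (hs : 0 < s) (hs2 : s ≤ 1 / 2) (hqs : 4 < q * (1 + 2 * s))
    (K : ℝ≥0) : ∃ C : ℝ≥0, ∀ U : Set (ℝ × ℝ), (∀ x ∈ U, x.1 ^ 2 + x.2 ^ 2 ≤ (1 / 2) ^ 2) →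
    ∀ (f : ℝ × ℝ → ℂ) (M : ℝ × ℝ → ℝ), Measurable f → Measurable M → (∀ x, ‖f x‖ ≤ M x) →
    (∀ x ∉ U, M x = 0) →
    (∀ᵐ x : ℝ, ∀ (j : ℤ) (h : ℝ), 0 < h → h ≤ 1 →
      ∫⁻ y, ‖part f M j (x, y + h) - part f M j (x, y)‖ₑ ^ 2 ≤
        K * ENNReal.ofReal (((2 : ℝ) ^ j) ^ 2 * h ^ (2 * s)) * length (level M j) x ^ (1 - 2 * s)) →
    ∫⁻ ξ : (ℝ × ℝ) × ℝ, ‖ext U f ξ‖ₑ ^ q ≤ C * ∫⁻ x : ℝ × ℝ, ENNReal.ofReal (M x) ^ q := by
  obtain ⟨C, hC⟩ := DR.unified_ae K s q hs hs2 hq hqs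
  refine ⟨C, fun U hU f M hf hM hbd hMU hm => ?_⟩
  have hfU : ∀ x ∉ U, f x = 0 := by
    intro x hx
    have := hbd x
    rw [hMU x hx] at this
    exact norm_le_zero_iff.1 this
  rw [norm_eq hf hfU q]
  refine hC f M hf hM hbd ?_ ?_
  · intro x hx
    apply box hU
    by_contra hc
    exact hx (hMU x hc)
  · filter_upwards [hm] with x hx j h hh hh1
    have h1 := hx j h hh hh1
    unfold part at h1
    rw [level_eq] at h1
    exact h1

/-- for every `l > 0` the set `{u > l}` is a union of `K` intervals (possibly empty) -/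
def Modal (K : ℕ) (u : ℝ → ℝ) : Prop :=
  ∀ l : ℝ, 0 < l → ∃ J : Fin K → Set ℝ, (∀ i, (J i).OrdConnected) ∧ {y | l < u y} = ⋃ i, J i

/-- **The conjectured inequality for functions with few intervals of monotonicity on vertical
lines.** Let `q > 3`. If on almost every vertical line the superlevel sets at positive heights of
`± Re f`, `± Im f` are unions of `K` intervals, then `∫ |E f|^q ≤ C ∫ |f|^q` with `C = C(q, K)`. -/
theorem modal (q : ℝ) (hq : 3 < q) (K : ℕ) : ∃ C : ℝ≥0, ∀ U : Set (ℝ × ℝ),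
    (∀ x ∈ U, x.1 ^ 2 + x.2 ^ 2 ≤ (1 / 2) ^ 2) → ∀ f : ℝ × ℝ → ℂ, Measurable f →
    (∀ x ∉ U, f x = 0) →
    (∀ᵐ x : ℝ, Modal K (fun y => (f (x, y)).re) ∧ Modal K (fun y => -(f (x, y)).re) ∧
      Modal K (fun y => (f (x, y)).im) ∧ Modal K (fun y => -(f (x, y)).im)) →
    ∫⁻ ξ : (ℝ × ℝ) × ℝ, ‖ext U f ξ‖ₑ ^ q ≤ C * ∫⁻ z : ℝ × ℝ, ‖f z‖ₑ ^ q := by
  obtain ⟨C, hC⟩ := DR.modal_ae K q hq
  refine ⟨C, fun U hU f hf hfU hm => ?_⟩
  rw [norm_eq hf hfU q]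
  refine hC f hf ?_ ?_
  · intro x hx
    apply box hU
    by_contra hc
    exact hx (hfU x hc)
  · filter_upwards [hm] with x hx i
    obtain ⟨h0, h1, h2, h3⟩ := hx
    fin_cases i
    · exact h0
    · exact h1
    · exact h2
    · exact h3

/-- **Mixed norm form.** Let `q > 3`, `0 < s ≤ 1/2`, `q (1 + 2 s) > 4`. If `|f(x₁, y)| ≤ N(x₁)` and
`∫ |f(x₁, y+h) - f(x₁, y)|² dy ≤ N(x₁)² h^{2s}` for almost every `x₁` and `0 < h ≤ 1`, then
`∫ |E f|^q ≤ C ∫ N^q` with `C = C(q, s)`. -/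
theorem mixed (q s : ℝ) (hq : 3 < q) (hs : 0 < s) (hs2 : s ≤ 1 / 2) (hqs : 4 < q * (1 + 2 * s)) :
    ∃ C : ℝ≥0, ∀ U : Set (ℝ × ℝ), (∀ x ∈ U, x.1 ^ 2 + x.2 ^ 2 ≤ (1 / 2) ^ 2) →
    ∀ (f : ℝ × ℝ → ℂ) (N : ℝ → ℝ), Measurable f → Measurable N → (∀ x ∉ U, f x = 0) →
    (∀ x y, ‖f (x, y)‖ ≤ N x) →
    (∀ᵐ x : ℝ, ∀ h : ℝ, 0 < h → h ≤ 1 →
      ∫⁻ y, ‖f (x, y + h) - f (x, y)‖ₑ ^ 2 ≤ ENNReal.ofReal (N x ^ 2 * h ^ (2 * s))) →
    ∫⁻ ξ : (ℝ × ℝ) × ℝ, ‖ext U f ξ‖ₑ ^ q ≤ C * ∫⁻ x : ℝ, ENNReal.ofReal (N x) ^ q := by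
  obtain ⟨C, hC⟩ := DR.mixed_ae s q hs hs2 hq hqs
  refine ⟨C, fun U hU f N hf hN hfU hbd hm => ?_⟩
  rw [norm_eq hf hfU q]
  refine hC f N hf hN ?_ hbd hm
  intro x hx
  apply box hU
  by_contra hc
  exact hx (hfU x hc)

/-- Example: on every vertical line `f` is a polynomial of degree at most `d` on an interval; the
coefficients and the end points of the interval are arbitrary measurable functions of `x₁`. -/
theorem polynomials (q : ℝ) (hq : 3 < q) (d : ℕ) : ∃ C : ℝ≥0, ∀ U : Set (ℝ × ℝ),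
    (∀ x ∈ U, x.1 ^ 2 + x.2 ^ 2 ≤ (1 / 2) ^ 2) → ∀ (c : ℕ → ℝ → ℂ) (α β : ℝ → ℝ),
    (∀ m, Measurable (c m)) → Measurable α → Measurable β → ∀ f : ℝ × ℝ → ℂ,
    (∀ x y, f (x, y) = if α x < y ∧ y < β x then
      ∑ m ∈ Finset.range (d + 1), c m x * ((y : ℂ) ^ m) else 0) →
    (∀ x ∉ U, f x = 0) →
    ∫⁻ ξ : (ℝ × ℝ) × ℝ, ‖ext U f ξ‖ₑ ^ q ≤ C * ∫⁻ z : ℝ × ℝ, ‖f z‖ₑ ^ q := by
  obtain ⟨C, hC⟩ := modal q hq (d + 1)
  refine ⟨C, fun U hU c α β hc hα hβ f hf hfU => ?_⟩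
  have hfm : Measurable f := by
    have e : f = fun z : ℝ × ℝ => if α z.1 < z.2 ∧ z.2 < β z.1 then
        ∑ m ∈ Finset.range (d + 1), c m z.1 * ((z.2 : ℂ) ^ m) else 0 := by
      ext z
      exact hf z.1 z.2
    rw [e]
    apply Measurable.ite _ _ measurable_const
    · exact (measurableSet_lt (hα.comp measurable_fst) measurable_snd).inter
        (measurableSet_lt measurable_snd (hβ.comp measurable_fst))
    · apply Finset.measurable_sum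
      intro m _
      have := hc m
      fun_prop
  -- a real linear functional of `f` on a vertical line
  have key : ∀ (ψ : ℂ →ₗ[ℝ] ℝ) (x : ℝ), Modal (d + 1) (fun y => ψ (f (x, y))) := by
    intro ψ x
    have h1 := DR.poly_modal d (∑ m ∈ Finset.range (d + 1),
      Polynomial.C (ψ (c m x)) * Polynomial.X ^ m) (by
        apply Polynomial.natDegree_sum_le_of_forall_le
        intro m hm
        exact (Polynomial.natDegree_C_mul_X_pow_le _ _).trans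
          (Nat.lt_succ_iff.1 (Finset.mem_range.1 hm))) (α x) (β x)
    have e : (fun y => ψ (f (x, y))) = fun y => if α x < y ∧ y < β x then
        (∑ m ∈ Finset.range (d + 1),
          Polynomial.C (ψ (c m x)) * Polynomial.X ^ m : Polynomial ℝ).eval y else 0 := by
      ext y
      rw [hf x y]
      split_ifs
      · rw [map_sum, Polynomial.eval_finsetSum]
        refine Finset.sum_congr rfl fun m _ => ?_
        have e2 : c m x * ((y : ℂ) ^ m) = (y ^ m : ℝ) • c m x := by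
          rw [Complex.real_smul]
          push_cast
          ring
        rw [e2, map_smul, Polynomial.eval_mul, Polynomial.eval_C, Polynomial.eval_pow,
          Polynomial.eval_X, smul_eq_mul, mul_comm]
      · rw [map_zero]
    rw [e]
    exact h1
  refine hC U hU f hfm hfU (Filter.Eventually.of_forall fun x => ⟨?_, ?_, ?_, ?_⟩)
  · exact key Complex.reLm x
  · exact key (-Complex.reLm) x
  · exact key Complex.imLm x
  · exact key (-Complex.imLm) x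

end Pool.Agent.Results.MP_5ab805_an.DirectionalRegularity
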