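import Mathlib
import Pool.Agent.TH407.AR.D4
import Pool.Agent.TH407.AR.M4
import Pool.Agent.TH209.VR.P3
import Pool.Agent.TH817.VR.HalfPlane
import Pool.Agent.TH817.VR.Poisson
import Pool.Agent.TH71.VR.C1
import Pool.Agent.TH71.VR.C2
import Pool.Agent.TH159.VR.AllOf
import Pool.Agent.TH159.VR.FaBounds
import Pool.Agent.TH777.VR.FF
import Pool.Agent.TH370.VR.Low
import Pool.Agent.TH370.VR.Shell
import Pool.Agent.TH407.AR.Strong
import Pool.Agent.TH407.AR.Restr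
import Pool.Agent.TH634.VR.I
import Pool.Agent.TH634.VR.K
set_option autoImplicit false

/-!
# The extension conjecture in `ℝ³` for functions of bounded variation along the rays from a point

For `p ∈ ℝ²` let `V f (x)` be the total variation of `f` on the segment from `p + (x - p)/4` to
`x`. In the whole conjectured range `q > 3`, for `f` supported in `U ⊆ B(0, 1/2)`,
`‖E f‖_q ≤ C_q (1 + |p|)^(2 - 6/q) ‖ |f| + V f ‖_q`: one needs regularity along the rays from `p`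
only, and none from ray to ray. In particular (theorem `decreasing`) the conjectured inequality
`‖E f‖_q ≤ C_q ‖f‖_q` holds whenever there is a point `p` such that on every ray from `p` the
function `f` is a constant times a nonincreasing function.
-/

namespace Pool.Agent.Results.MP_5ab805_an.VariationAlongRays

open MeasureTheory Set Complex
open scoped ENNReal NNReal
open Pool.Agent.TH407

/-- The Fourier extension operator of the paraboloid `(x₁, x₂, x₁² + x₂²)` over `U`. -/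
noncomputable def ext (U : Set (ℝ × ℝ)) (f : ℝ × ℝ → ℂ) (ξ : (ℝ × ℝ) × ℝ) : ℂ :=
  ∫ x in U, cexp (-(I * ((x.1 * ξ.1.1 + x.2 * ξ.1.2 + (x.1 ^ 2 + x.2 ^ 2) * ξ.2 : ℝ) : ℂ))) * f x

theorem shell : AR.ShellBound :=
  Pool.Agent.TH370.VR.shell_of
    (Pool.Agent.TH407.ARx.strong_of
      (Pool.Agent.TH407.ARx.restr_of Pool.Agent.TH777.VR.fourier_facts
        (Pool.Agent.TH370.VR.low_of
          (Pool.Agent.TH159.VR.F.all_of
            (AR.even_of Pool.Agent.TH209.VR.planar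
              (Pool.Agent.TH71.VR.base_of Pool.Agent.TH817.VR.poisson Pool.Agent.TH71.VR.exact))
            Pool.Agent.TH817.VR.half_plane)
          Pool.Agent.TH777.VR.fourier_facts)
        Pool.Agent.TH159.VR.fa_bounds)
      Pool.Agent.TH634.VR.sum_lemma)
    Pool.Agent.TH634.VR.var_mod

theorem ext_eq {U : Set (ℝ × ℝ)} {f : ℝ × ℝ → ℂ} (h : ∀ x ∉ U, f x = 0) (ξ : (ℝ × ℝ) × ℝ) :
    ext U f ξ = AR.EX f ξ.1 ξ.2 := by
  unfold ext AR.EX
  apply setIntegral_eq_integral_of_forall_compl_eq_zero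
  intro x hx
  rw [h x hx, mul_zero]

theorem supp {U : Set (ℝ × ℝ)} {f : ℝ × ℝ → ℂ} (hU : ∀ x ∈ U, x.1 ^ 2 + x.2 ^ 2 ≤ (1 / 2) ^ 2)
    (h : ∀ x ∉ U, f x = 0) (x : ℝ × ℝ) (hx : 1 / 4 < AR.sq x) : f x = 0 := by
  apply h
  intro hxU
  have h1 := hU x hxU
  have h2 : AR.sq x = x.1 ^ 2 + x.2 ^ 2 := rfl
  rw [h2] at hx
  linarith

/-- **Functions of bounded variation along the rays from a point.** Let `q > 3`. There is `C`
such that for every `U ⊆ B(0,1/2)`, every `p ∈ ℝ²`, every measurable `f` vanishing off `U` and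
every measurable `M` with `|f(x)| + Var_{s ∈ [1/4,1]} f(p + s (x - p)) ≤ M(x)` for all `x`,
`∫ |E f|^q ≤ C (1 + |p|)^(2q - 6) ∫ M^q`. -/
theorem result (q : ℝ) (hq : 3 < q) :
    ∃ C : ℝ≥0, ∀ (U : Set (ℝ × ℝ)), (∀ x ∈ U, x.1 ^ 2 + x.2 ^ 2 ≤ (1 / 2) ^ 2) →
      ∀ (p : ℝ × ℝ) (f : ℝ × ℝ → ℂ) (M : ℝ × ℝ → ℝ≥0∞), Measurable f → Measurable M →
        (∀ x ∉ U, f x = 0) →
        (∀ x, ‖f x‖ₑ + eVariationOn (fun s : ℝ => f (p + s • (x - p))) (Icc (1 / 4) 1) ≤ M x) →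
        ∫⁻ ξ : (ℝ × ℝ) × ℝ, ‖ext U f ξ‖ₑ ^ q ≤
          C * ENNReal.ofReal ((1 + √(p.1 ^ 2 + p.2 ^ 2)) ^ (2 * q - 6)) * ∫⁻ x, M x ^ q := by
  obtain ⟨C, hC⟩ := AR.main shell q hq
  refine ⟨C, ?_⟩
  intro U hU p f M hf hM h0 hW
  simp only [ext_eq h0]
  exact hC p f M hf hM (supp hU h0) hW

/-- **Radially decreasing functions.** For `q > 3` there is `C` such that
`‖E f‖_{L^q(ℝ³)} ≤ C ‖f‖_{L^q(U)}` for every `U ⊆ B(0,1/2)` and every measurable `f` vanishing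
off `U` for which there is `p ∈ ℝ²` such that on every ray from `p` the function `f` is a
constant times a nonincreasing function: `f(x) = μ f(p + s (x - p))` with `μ ∈ [0,1]`, for
`0 < s ≤ 1`. -/
theorem decreasing (q : ℝ) (hq : 3 < q) :
    ∃ C : ℝ≥0, ∀ (U : Set (ℝ × ℝ)), (∀ x ∈ U, x.1 ^ 2 + x.2 ^ 2 ≤ (1 / 2) ^ 2) →
      ∀ (p : ℝ × ℝ) (f : ℝ × ℝ → ℂ), Measurable f → (∀ x ∉ U, f x = 0) →
        (∀ (x : ℝ × ℝ) (s : ℝ), 0 < s → s ≤ 1 →
          ∃ μ : ℝ, 0 ≤ μ ∧ μ ≤ 1 ∧ f x = (μ : ℂ) * f (p + s • (x - p))) →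
        ∫⁻ ξ : (ℝ × ℝ) × ℝ, ‖ext U f ξ‖ₑ ^ q ≤ C * ∫⁻ x in U, ‖f x‖ₑ ^ q := by
  obtain ⟨C, hC⟩ := AR.main_dec shell q hq
  refine ⟨C, ?_⟩
  intro U hU p f hf h0 hd
  simp only [ext_eq h0]
  refine (hC p f hf (supp hU h0) hd).trans (le_of_eq ?_)
  congr 1
  symm
  apply setLIntegral_eq_of_support_subset
  intro x hx
  by_contra hxU
  apply hx
  simp only
  rw [h0 x hxU, enorm_zero, ENNReal.zero_rpow_of_pos (by linarith)]

end Pool.Agent.Results.MP_5ab805_an.VariationAlongRays
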